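import Pool.Agent.T2H49.HT.StabC
import Pool.Agent.T2H49.HT.StabD
import Pool.Agent.R603.HEP.Sep
import Pool.Agent.Results.MP_69fea5_lc.CantorBendixson

/-!
Bounded sums and stable colourings: a classification of the strength.
-/

namespace Pool.Agent.Results.MP_69fea5_lc.StableTwoColours

open Pool.Agent.Y545.HM Pool.Agent.Y545.HM.St
open Pool.Agent.T2H49.HTS Pool.Agent.T2H49.HTD Pool.Agent.T2H49.HT3
open Pool.Agent.Helper446 Pool.Agent.Helper446.Defs Pool.Agent.Helper446.Oracle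

/-- `X` is an infinite set of positive integers such that all sums of at least one and at most
`n` elements of `X` have the same colour. -/
def SolutionUpTo {k : ℕ} (n : ℕ) (c : ℕ → Fin k) (X : Set ℕ) : Prop :=
  X.Infinite ∧ 0 ∉ X ∧ ∃ j, ∀ F : Finset ℕ, (F : Set ℕ) ⊆ X → F.Nonempty → F.card ≤ n →
    c (∑ x ∈ F, x) = j

/-- The colouring `c` is stable for the number `p`: for every `a > 0`, the colour of `a + z` is
the same for all `z > 0` which are divisible by a sufficiently high power of `p`. -/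
def Stable {k : ℕ} (p : ℕ) (c : ℕ → Fin k) : Prop :=
  ∀ a, 0 < a → ∃ N, ∀ z z', 0 < z → 0 < z' → p ^ N ∣ z → p ^ N ∣ z' → c (a + z) = c (a + z')

/-- Hindman's theorem for stable colourings with `k` colours and sums of at most `n` elements
holds in `I`. -/
def HTS (p k n : ℕ) (I : Set (Set ℕ)) : Prop :=
  ∀ c : ℕ → Fin k, Stable p c → (∃ A ∈ I, Computes A (fun m => Part.some (c m).val)) →
    ∃ X ∈ I, SolutionUpTo n c X

/-- The principle `D²₂` holds in `I`: for every stable colouring `e` of the pairs with two colours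
there is an infinite set on which the limit colour is constant. -/
def D22 (I : Set (Set ℕ)) : Prop :=
  ∀ e : ℕ → Fin 2, (∃ A ∈ I, Computes A (fun m => Part.some (e m).val)) →
    (∀ v, ∃ N j, ∀ n, N ≤ n → e (Nat.pair v n) = j) →
      ∃ G ∈ I, G.Infinite ∧ ∃ j, ∀ v ∈ G, ∃ N, ∀ n, N ≤ n → e (Nat.pair v n) = j

theorem sol_two {k : ℕ} {c : ℕ → Fin k} {X : Set ℕ} : SolutionUpTo 2 c X ↔ Hom2 c X := by
  constructor
  · rintro ⟨h1, h2, j, hj⟩
    refine ⟨h1, h2, j, fun x hx => ?_, fun x hx y hy hxy => ?_⟩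
    · have := hj {x} (by simpa using hx) (by simp) (by simp)
      simpa using this
    · have hne : x ≠ y := by omega
      have := hj {x, y} (by
        intro a ha
        simp only [Finset.coe_insert, Finset.coe_singleton, Set.mem_insert_iff,
          Set.mem_singleton_iff] at ha
        rcases ha with rfl | rfl <;> assumption) (by simp)
        (by rw [Finset.card_pair hne])
      rwa [Finset.sum_pair hne] at this
  · rintro ⟨h1, h2, j, hj1, hj2⟩
    refine ⟨h1, h2, j, fun F hF hne hc => ?_⟩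
    have h3 : F.card = 1 ∨ F.card = 2 := by
      have := Finset.card_pos.2 hne
      omega
    rcases h3 with h3 | h3
    · obtain ⟨x, rfl⟩ := Finset.card_eq_one.1 h3
      rw [Finset.sum_singleton]
      exact hj1 x (hF (by simp))
    · obtain ⟨x, y, hxy, rfl⟩ := Finset.card_eq_two.1 h3
      rw [Finset.sum_pair hxy]
      have hx : x ∈ X := hF (by simp)
      have hy : y ∈ X := hF (by simp)
      rcases Nat.lt_or_gt_of_ne hxy with h | h
      · exact hj2 x hx y hy h
      · rw [add_comm]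
        exact hj2 y hy x hx h

theorem sol_mono {k m n : ℕ} {c : ℕ → Fin k} {X : Set ℕ} (h : m ≤ n) (hX : SolutionUpTo n c X) :
    SolutionUpTo m c X := by
  obtain ⟨h1, h2, j, hj⟩ := hX
  exact ⟨h1, h2, j, fun F hF hne hc => hj F hF hne (hc.trans h)⟩

theorem sol_cast {k l n : ℕ} (hkl : k ≤ l) (hn : 1 ≤ n) {c : ℕ → Fin k} {X : Set ℕ}
    (hX : SolutionUpTo n (fun m => Fin.castLE hkl (c m)) X) : SolutionUpTo n c X := by
  obtain ⟨h1, h2, j, hj⟩ := hX
  obtain ⟨x, hx⟩ := h1.nonempty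
  refine ⟨h1, h2, c x, fun F hF hne hcard => ?_⟩
  have h3 := hj F hF hne hcard
  have h4 := hj {x} (by simpa using hx) (by simp) (by simp; omega)
  rw [Finset.sum_singleton] at h4
  exact Fin.castLE_injective hkl (h3.trans h4.symm)

theorem stable_cast {k l p : ℕ} (hkl : k ≤ l) {c : ℕ → Fin k} (h : Stable p c) :
    Stable p (fun m => Fin.castLE hkl (c m)) := by
  intro a ha
  obtain ⟨N, hN⟩ := h a ha
  exact ⟨N, fun z z' hz hz' hd hd' => by simp only [hN z z' hz hz' hd hd']⟩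

/-- computable solutions -/
theorem easy {p : ℕ} (hp : p.Prime) (h : p = 2 ∨ Odd (orderOf (2 : ZMod p))) {A : Set ℕ}
    {c : ℕ → Fin 2} (hc : Gr A c) (hs : Stable p c) : ∃ X, Dec A X ∧ Hom2 c X := by
  have : Fact p.Prime := ⟨hp⟩
  obtain ⟨Ψ, hΨ⟩ := Stb.lim hp.pos hs
  by_cases hp2 : p = 2
  · subst hp2
    exact two_adic hc hΨ
  · exact odd_order hp2 (h.resolve_left hp2) hΨ

theorem forward {p : ℕ} (hp : p.Prime) {I : Set (Set ℕ)} (hI : Ideal I) (h : D22 I) :
    HTS p 2 2 I := by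
  have hI' := ideal_iff.1 hI
  rintro c hs ⟨A, hA, hc⟩
  have hc := computes_col.1 hc
  by_cases ho : p = 2 ∨ Odd (orderOf (2 : ZMod p))
  · obtain ⟨X, hX1, hX2⟩ := easy hp ho hc hs
    exact ⟨X, hI'.2.1 A hA X hX1, sol_two.2 hX2⟩
  · push Not at ho
    obtain ⟨hp2, ho⟩ := ho
    have : Fact p.Prime := ⟨hp⟩
    obtain ⟨Ψ, hΨ⟩ := Stb.lim hp.pos hs
    have hpw : Primrec fun i : ℕ => p ^ i := by
      refine (Primrec.nat_rec₁ (f := fun _ n => n * p) 1
        (Primrec.nat_mul.comp Primrec.snd (Primrec.const p))).of_eq fun n => ?_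
      induction n with
      | zero => rfl
      | succ n ih => rw [pow_succ, ← ih]
    have he : Gr A fun n : ℕ => c (p ^ n.unpair.1 + p ^ n.unpair.2) := by
      refine hc.pre (g := fun n : ℕ => p ^ n.unpair.1 + p ^ n.unpair.2) ?_
      exact (Primrec.nat_add.comp (hpw.comp (Primrec.fst.comp Primrec.unpair))
        (hpw.comp (Primrec.snd.comp Primrec.unpair))).to_comp
    have hlim : ∀ v, ∃ N, ∀ n, N ≤ n → c (p ^ v + p ^ n) = Ψ (p ^ v) := by
      intro v
      obtain ⟨N, hN⟩ := hΨ (p ^ v) (pow_pos hp.pos v)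
      exact ⟨N, fun n hn => hN _ (pow_pos hp.pos n) (pow_dvd_pow p hn)⟩
    obtain ⟨G, hG, hinf, j, hj⟩ := h (fun n => c (p ^ n.unpair.1 + p ^ n.unpair.2))
      ⟨A, hA, computes_col.2 he⟩ (fun v => by
        obtain ⟨N, hN⟩ := hlim v
        exact ⟨N, Ψ (p ^ v), fun n hn => by simpa [Nat.unpair_pair] using hN n hn⟩)
    have hGj : ∀ v ∈ G, Ψ (p ^ v) = j := by
      intro v hv
      obtain ⟨N, hN⟩ := hj v hv
      obtain ⟨M, hM⟩ := hlim v
      have h1 := hN (N + M) (by omega)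
      have h2 := hM (N + M) (by omega)
      simp only [Nat.unpair_pair] at h1
      rw [← h2, h1]
    obtain ⟨X, hX1, hX2⟩ := even_order (W := join A G) hp2 (Nat.not_odd_iff_even.1 ho)
      (hc.lift dec_left) hΨ dec_right hinf hGj
    exact ⟨X, hI'.2.1 _ (hI'.2.2 A hA G hG) X hX1, sol_two.2 hX2⟩

theorem backward {p : ℕ} (hp : p.Prime) (hp2 : p ≠ 2) (ho : Even (orderOf (2 : ZMod p)))
    {I : Set (Set ℕ)} (hI : Ideal I) (h : HTS p 2 2 I) : D22 I := by
  have hI' := ideal_iff.1 hI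
  have : Fact p.Prime := ⟨hp⟩
  rintro e ⟨A, hA, he⟩ hlim
  have he := computes_col.1 he
  obtain ⟨g, hg⟩ := exists_table hp2 ho
  obtain ⟨X, hX, hX2⟩ := h (ecol g e) (ecol_stb hlim) ⟨A, hA, computes_col.2 (ecol_gr he)⟩
  obtain ⟨G, hG1, hG2, hG3⟩ := reverse (W := X) hp2 hg hlim Dec.rfl (sol_two.1 hX2)
  exact ⟨G, hI'.2.1 X hX G hG1, hG2, hG3⟩

open Pool.Agent.R603.HCB in
/-- stable colourings have discrete limit spaces -/
theorem limits_discrete {p k : ℕ} (hp : 1 < p) {c : ℕ → Fin k} (hs : Stable p c) :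
    derivedSet (Limits c) = ∅ := by
  obtain ⟨Ψ, hΨ⟩ := Stb.lim (by omega) hs
  have h1 : ∀ g ∈ Limits c, ∀ x, 0 < x → g x = Ψ x := by
    intro g hg x hx
    obtain ⟨N, hN⟩ := hΨ x hx
    obtain ⟨y, hy, hd, hy2⟩ := hg (p ^ N + x + 1)
    have h2 : p ^ N ∣ (p ^ N + x + 1).factorial :=
      Nat.dvd_factorial (by positivity) (by omega)
    rw [← hy2 x (by omega)]
    exact hN y hy (h2.trans hd)
  rw [derivedSet_eq]
  refine Set.eq_empty_iff_forall_notMem.2 fun g hg => ?_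
  have hgL : g ∈ Limits c := cl_limits c g fun N => by
    obtain ⟨h, hh1, -, hh3⟩ := hg N
    exact ⟨h, hh1, hh3⟩
  obtain ⟨h, hh1, hh2, hh3⟩ := hg 1
  refine hh2 (funext fun x => ?_)
  rcases Nat.eq_zero_or_pos x with rfl | hx
  · exact hh3 0 (by omega)
  · rw [h1 h hh1 x hx, h1 g hgL x hx]

open Pool.Agent.R603.HCB in
theorem all_of_aca {p k n : ℕ} (hp : 1 < p) {I : Set (Set ℕ)} (hI : Ideal I) (h : ACA I) :
    HTS p k n I := by
  intro c hs hc
  have hiff : ACA I ↔ HT I (fun _ c => derivedSet (Limits c) = ∅) :=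
    (CantorBendixson.result.2.2 I hI).out 0 1
  obtain ⟨X, hX, h1, h2, j, hj⟩ := hiff.1 h k c hc (limits_discrete hp hs)
  exact ⟨X, hX, h1, h2, j, fun F hF hne _ => hj F hF hne⟩

theorem code_three {A S : Set ℕ} (hS : Enum A S) : ∃ c : ℕ → Fin 3,
    Computes A (fun m => Part.some (c m).val) ∧ Stable 2 c ∧
      ∀ X, SolutionUpTo 2 c X → Computes (Join A X) (char S) := by
  obtain ⟨c, hc, hs, h⟩ := lower2 (enum_iff.1 hS)
  exact ⟨c, computes_col.2 hc, hs, fun X hX =>
    computes_set.2 (h (join A X) X dec_left dec_right (sol_two.1 hX))⟩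

theorem code_two {A S : Set ℕ} (hS : Enum A S) : ∃ c : ℕ → Fin 2,
    Computes A (fun m => Part.some (c m).val) ∧ Stable 2 c ∧
      ∀ X, SolutionUpTo 3 c X → Computes (Join A X) (char S) := by
  obtain ⟨c, hc, hs, h⟩ := lower3' (enum_iff.1 hS)
  exact ⟨c, computes_col.2 hc, hs, fun X hX =>
    computes_set.2 (h (join A X) X dec_left dec_right hX)⟩

theorem aca_of {k l m n : ℕ} (hkl : k ≤ l) (hmn : m ≤ n) (hm : 1 ≤ m)
    (hcode : ∀ A S, Enum A S → ∃ c : ℕ → Fin k,
      Computes A (fun m => Part.some (c m).val) ∧ Stable 2 c ∧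
        ∀ X, SolutionUpTo m c X → Computes (Join A X) (char S))
    {I : Set (Set ℕ)} (hI : Ideal I) (h : HTS 2 l n I) : ACA I := by
  intro A hA S hS
  obtain ⟨c, hc, hs, h1⟩ := hcode A S hS
  have hcast : Gr A fun m => Fin.castLE hkl (c m) := by
    have h2 : Primrec (Fin.castLE hkl) := Primrec.dom_finite _
    exact Gr.post h2.to_comp (computes_col.1 hc)
  obtain ⟨X, hX, hX2⟩ := h (fun m => Fin.castLE hkl (c m)) (stable_cast hkl hs)
    ⟨A, hA, computes_col.2 hcast⟩
  exact hI.2.1 _ (hI.2.2 A hA X hX) S (h1 X (sol_mono hmn (sol_cast hkl (hm.trans hmn) hX2)))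

theorem halting : ∃ K : Set ℕ, REIn ∅ (· ∈ K) ∧ ¬ Dec ∅ K := by
  refine ⟨{n | ((Denumerable.ofNat Nat.Partrec.Code n).eval 0).Dom}, ?_, fun h => ?_⟩
  · refine REIn.of_re ?_
    exact RE.comp (ComputablePred.halting_problem_re 0)
      (f := fun n : ℕ => Denumerable.ofNat Nat.Partrec.Code n) (Computable.ofNat _)
  · have h1 : ComputablePred fun n : ℕ => ((Denumerable.ofNat Nat.Partrec.Code n).eval 0).Dom :=
      RE.cp_of_re (re_of_empty h.1) (re_of_empty h.2)
    have h2 : ComputablePred fun c : Nat.Partrec.Code =>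
        ((Denumerable.ofNat Nat.Partrec.Code (Encodable.encode c)).eval 0).Dom :=
      RE.cp_comp h1 (f := fun c : Nat.Partrec.Code => Encodable.encode c) Computable.encode
    refine ComputablePred.halting_problem 0 ?_
    simpa only [Denumerable.ofNat_encode] using h2

theorem avoid {Z C : Set ℕ} (hC : ¬ Computes Z (char C)) : ∃ I : Set (Set ℕ), Ideal I ∧ Z ∈ I ∧
    C ∉ I ∧ D22 I := by
  obtain ⟨I, hI, hZ, hCI, -, h⟩ := Pool.Agent.R603.HEP.exists_ideal
    (fun h => hC (computes_set.2 h) : ¬ Dec Z C)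
  refine ⟨I, ideal_iff.2 hI, hZ, hCI, ?_⟩
  rintro e ⟨A, hA, he⟩ hlim
  obtain ⟨U, hU, V, -, hU1, hV1, i, hi⟩ := h 2 e ⟨A, hA, computes_col.1 he⟩
  refine ⟨U, hU, hU1, i, fun v hv => ?_⟩
  obtain ⟨N, j, hN⟩ := hlim v
  obtain ⟨b, hb, hb2⟩ := hV1.exists_gt (N + v)
  have h1 := hi v hv b hb (by omega)
  rw [hN b (by omega)] at h1
  subst h1
  exact ⟨N, hN⟩

/-- **The strength of Hindman's theorem for stable colourings and bounded sums.** -/
theorem result :
    -- two colours, sums of at most two elements: computable solutions for `p = 2`, and for the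
    -- odd primes modulo which the order of `2` is odd
    (∀ p : ℕ, p.Prime → (p = 2 ∨ Odd (orderOf (2 : ZMod p))) → ∀ (A : Set ℕ) (c : ℕ → Fin 2),
      Computes A (fun m => Part.some (c m).val) → Stable p c →
        ∃ X, SolutionUpTo 2 c X ∧ Computes A (char X)) ∧
    -- for the other primes the principle `D²₂`
    (∀ p : ℕ, p.Prime → p ≠ 2 → Even (orderOf (2 : ZMod p)) → ∀ I : Set (Set ℕ), Ideal I →
      (HTS p 2 2 I ↔ D22 I)) ∧
    -- `p = 2` and more colours or longer sums: arithmetical comprehension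
    (∀ k n : ℕ, 2 ≤ k → 2 ≤ n → 5 ≤ k + n → ∀ I : Set (Set ℕ), Ideal I →
      (HTS 2 k n I ↔ ACA I)) ∧
    -- single colourings
    (∀ A S : Set ℕ, Enum A S →
      (∃ c : ℕ → Fin 3, Computes A (fun m => Part.some (c m).val) ∧ Stable 2 c ∧
        ∀ X, SolutionUpTo 2 c X → Computes (Join A X) (char S)) ∧
      ∃ c : ℕ → Fin 2, Computes A (fun m => Part.some (c m).val) ∧ Stable 2 c ∧
        ∀ X, SolutionUpTo 3 c X → Computes (Join A X) (char S)) ∧
    -- arithmetical comprehension is always enough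
    (∀ p k n : ℕ, 1 < p → ∀ I : Set (Set ℕ), Ideal I → ACA I → HTS p k n I) ∧
    -- cone avoidance for two colours and sums of at most two elements
    (∀ Z C : Set ℕ, ¬ Computes Z (char C) → ∃ I : Set (Set ℕ), Ideal I ∧ Z ∈ I ∧ C ∉ I ∧
      ∀ p : ℕ, p.Prime → HTS p 2 2 I) ∧
    -- separation
    ∃ I : Set (Set ℕ), Ideal I ∧ (∀ p : ℕ, p.Prime → HTS p 2 2 I) ∧
      ∀ k n : ℕ, 2 ≤ k → 2 ≤ n → 5 ≤ k + n → ¬ HTS 2 k n I := by
  have big : ∀ k n : ℕ, 2 ≤ k → 2 ≤ n → 5 ≤ k + n → ∀ I : Set (Set ℕ), Ideal I →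
      (HTS 2 k n I ↔ ACA I) := by
    intro k n hk hn hkn I hI
    refine ⟨fun h => ?_, fun h => all_of_aca (by norm_num) hI h⟩
    by_cases h3 : 3 ≤ n
    · exact aca_of hk h3 (by norm_num) (fun A S hS => code_two hS) hI h
    · exact aca_of (show 3 ≤ k by omega) hn (by norm_num) (fun A S hS => code_three hS) hI h
  refine ⟨?_, ?_, big, ?_, ?_, ?_, ?_⟩
  · intro p hp ho A c hc hs
    obtain ⟨X, hX1, hX2⟩ := easy hp ho (computes_col.1 hc) hs
    exact ⟨X, sol_two.2 hX2, computes_set.2 hX1⟩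
  · exact fun p hp hp2 ho I hI => ⟨backward hp hp2 ho hI, forward hp hI⟩
  · exact fun A S hS => ⟨code_three hS, code_two hS⟩
  · exact fun p k n hp I hI h => all_of_aca hp hI h
  · intro Z C hC
    obtain ⟨I, hI, hZ, hCI, h⟩ := avoid hC
    exact ⟨I, hI, hZ, hCI, fun p hp => forward hp hI h⟩
  · obtain ⟨K, hK1, hK2⟩ := halting
    obtain ⟨I, hI, hZ, hCI, h⟩ := avoid (Z := ∅) (C := K) fun h => hK2 (computes_set.1 h)
    refine ⟨I, hI, fun p hp => forward hp hI h, fun k n hk hn hkn h1 => ?_⟩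
    exact hCI ((big k n hk hn hkn I hI).1 h1 ∅ hZ K (enum_iff.2 hK1))

end Pool.Agent.Results.MP_69fea5_lc.StableTwoColours
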