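import Pool.Agent.T2H49.HT.ThreeE

/-!
Hindman's theorem for two colours and sums of at most three elements implies the existence of the
Turing jump.
-/

namespace Pool.Agent.Results.MP_69fea5_lc.ThreeSums

open Pool.Agent.Y545.HM Pool.Agent.Y545.HM.St Pool.Agent.T2H49.HT3
open Pool.Agent.Helper446 Pool.Agent.Helper446.Defs Pool.Agent.Helper446.Oracle
open Nat.Partrec (Code)

/-- `X` is an infinite set of positive integers such that all sums of at least one and at most
`n` elements of `X` have the same colour. -/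
def SolutionUpTo {k : ℕ} (n : ℕ) (c : ℕ → Fin k) (X : Set ℕ) : Prop :=
  X.Infinite ∧ 0 ∉ X ∧ ∃ j, ∀ F : Finset ℕ, (F : Set ℕ) ⊆ X → F.Nonempty → F.card ≤ n →
    c (∑ x ∈ F, x) = j

/-- the universal enumerable set -/
def U : Set ℕ := {n | (Code.eval (Denumerable.ofNat Code n.unpair.1) n.unpair.2).Dom}

theorem re_U : REPred (· ∈ U) := by
  have h1 : Partrec fun n : ℕ => Code.eval (Denumerable.ofNat Code n.unpair.1) n.unpair.2 :=
    Code.eval_part.comp ((Computable.ofNat Code).comp (Computable.fst.comp Computable.unpair))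
      (Computable.snd.comp Computable.unpair)
  exact h1.dom_re

theorem red_U {S : Set ℕ} (hS : REPred (· ∈ S)) : ∃ e : ℕ, ∀ n, n ∈ S ↔ Nat.pair e n ∈ U := by
  have h1 : Partrec fun n : ℕ =>
      (Part.assert (n ∈ S) fun _ => Part.some ()).map fun _ => (0 : ℕ) :=
    Partrec.map hS ((Computable.const 0).to₂)
  obtain ⟨c, hc⟩ := Code.exists_code.1 (Partrec.nat_iff.1 h1)
  refine ⟨Encodable.encode c, fun n => ?_⟩
  simp only [U, Set.mem_ofPred_eq, Nat.unpair_pair, Denumerable.ofNat_encode, hc]
  simp [Part.assert, Part.map]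

/-- **Two colours and sums of at most three elements code the jump.** -/
theorem result :
    -- a computable colouring, all of whose solutions compute every enumerable set
    (∃ c : ℕ → Fin 2, Computable c ∧ ∀ X, SolutionUpTo 3 c X →
      ∀ S : Set ℕ, REPred (· ∈ S) → Computes X (char S)) ∧
    -- relative to an oracle
    (∀ A S, Enum A S → ∃ c : ℕ → Fin 2, Computes A (fun n => Part.some (c n).val) ∧
      ∀ X, SolutionUpTo 3 c X → Computes (Join A X) (char S)) ∧
    -- in the `ω`-models of `RCA₀`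
    ∀ I : Set (Set ℕ), Ideal I → ∀ k n, 2 ≤ k → 3 ≤ n →
      (∀ c : ℕ → Fin k, (∃ A ∈ I, Computes A (fun n => Part.some (c n).val)) →
        ∃ X ∈ I, SolutionUpTo n c X) → ACA I := by
  have hom : ∀ {c : ℕ → Fin 2} {X : Set ℕ}, SolutionUpTo 3 c X → Hom3 c X := fun h => h
  refine ⟨?_, ?_, ?_⟩
  · obtain ⟨c, hc, h⟩ := lower3 (A := ∅) (REIn.of_re re_U)
    refine ⟨c, RE.computable_of_graph (re_of_empty hc), fun X hX S hS => ?_⟩
    have hemp : Dec X ∅ := by
      constructor
      · refine (REIn.of_re (S := fun _ : ℕ => False) (RE.const False)).of_eq fun n => ?_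
        simp
      · refine (REIn.of_re (S := fun _ : ℕ => True) (RE.const True)).of_eq fun n => ?_
        simp
    obtain ⟨e, he⟩ := red_U hS
    have h1 := h X X hemp Dec.rfl (hom hX)
    refine computes_set.2 ⟨?_, ?_⟩
    · exact (h1.1.comp (f := fun n : ℕ => Nat.pair e n) (by fun_prop)).of_eq fun n => (he n).symm
    · exact (h1.2.comp (f := fun n : ℕ => Nat.pair e n) (by fun_prop)).of_eq fun n =>
        not_congr (he n).symm
  · intro A S hS
    obtain ⟨c, hc, h⟩ := lower3 (enum_iff.1 hS)
    exact ⟨c, computes_col.2 hc, fun X hX =>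
      computes_set.2 (h (join A X) X dec_left dec_right (hom hX))⟩
  · intro I hI k n hk hn hHT
    have hI' := ideal_iff.1 hI
    rw [aca_iff]
    intro A hA S hS
    obtain ⟨c, hc, h⟩ := lower3 hS
    have hcast : Gr A fun m => Fin.castLE hk (c m) := by
      have h2 : Primrec (Fin.castLE hk) := Primrec.dom_finite _
      exact Gr.post h2.to_comp hc
    obtain ⟨X, hXI, hX1, hX2, j, hX3⟩ := hHT (fun m => Fin.castLE hk (c m))
      ⟨A, hA, computes_col.2 hcast⟩
    have hX : Hom3 c X := by
      refine ⟨hX1, hX2, ?_⟩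
      obtain ⟨x, hx⟩ := hX1.nonempty
      refine ⟨c x, fun F hF hne hcard => ?_⟩
      have h3 := hX3 F hF hne (hcard.trans hn)
      have h4 := hX3 {x} (by simpa using hx) (by simp) (by simp; omega)
      rw [Finset.sum_singleton] at h4
      have h5 : Fin.castLE hk (c (∑ x ∈ F, x)) = Fin.castLE hk (c x) := h3.trans h4.symm
      exact Fin.castLE_injective hk h5
    exact hI'.2.1 _ (hI'.2.2 A hA X hXI) _ (h (join A X) X dec_left dec_right hX)

end Pool.Agent.Results.MP_69fea5_lc.ThreeSums
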