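import Pool.Agent.T2H49.HT.TwoC

/-!
# Two colours and the double jump

There is a computable colouring of the positive integers with two colours such that every solution
of Hindman's theorem for it computes the double jump `0''`. The same holds for the sums of two,
three or four distinct elements, if the set contains multiples of all powers of `3`. Without this
assumption four colours suffice for sums of at most four elements.

The colour of `n` is the sum modulo `2`, over the pairs `u, v` of consecutive nonzero ternary
positions of `n`, of two functionals: the first one (Blass, Hirst, Simpson) asks whether a number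
`z ≤ u` is enumerated between the stages `v` and `s`, the second one whether the approximations
`A_u` and `A_v` of a `Σ⁰₂` set `A`, as seen at stage `s`, differ below `x`, where `s` and `x` are
the highest and the lowest position of `n`. The equality of the colours of `h + l`, `h + k + l` and
`h + k + m + l` shows that the contribution of the second functional to `(k, m)` does not depend on
the lowest summand `h`; for a fixed `h` it vanishes when `k` and `m` are large. So
beyond some point both functionals satisfy their relations separately.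
-/

namespace Pool.Agent.Results.MP_69fea5_lc.TwoColourDoubleJump

open Pool.Agent.H645R2.HT Pool.Agent.T2H49.HT

/-- The characteristic function of a set of natural numbers, as a (total) partial function. -/
noncomputable def char (B : Set ℕ) : ℕ →. ℕ := by
  classical exact fun n => Part.some (if n ∈ B then 1 else 0)

theorem of_sys {X E : Set ℕ} {ν : ℕ → ℕ} {S : ℕ → ℕ → Prop} (hE : Sys E ν S)
    (hC : Hom E ν S (C (gg W0 p0))) (rE : Pool.Agent.Helper446.Oracle.REIn X fun a : ℕ => a ∈ E)
    (rS : Pool.Agent.Helper446.Oracle.REIn X fun q : ℕ × ℕ => S q.1 q.2) (hν : Computable ν)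
    {R : ℕ → ℕ → ℕ → Bool} (hR : Computable (fun q : ℕ × ℕ × ℕ => R q.1 q.2.1 q.2.2)) :
    TuringReducible (char {n | ∃ a, ∀ b, R n a b = true}) (char X) := by
  classical
  obtain ⟨k1, k2⟩ := computes' c_W0 c_p0 mon_W0 hE hC rE rS hν
  obtain ⟨e, he⟩ := sigma2_univ hR
  have h1 : Pool.Agent.Helper446.Oracle.REIn X
      (fun n => n ∈ {n | ∃ a, ∀ b, R n a b = true}) :=
    (k1.comp (f := fun n : ℕ => Nat.pair e n) (by fun_prop)).of_eq fun n => (he n).symm
  have h2 : Pool.Agent.Helper446.Oracle.REIn X
      (fun n => n ∉ {n | ∃ a, ∀ b, R n a b = true}) :=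
    (k2.comp (f := fun n : ℕ => Nat.pair e n) (by fun_prop)).of_eq fun n =>
      not_congr (he n).symm
  exact Pool.Agent.Helper446.Oracle.turingReducible_iff.2 ⟨h1, h2⟩

/-- **Two colours and the double jump.** -/
theorem result :
    -- two colours, all finite sums; or sums of two, three or four distinct elements, if the set
    -- contains multiples of all powers of `3`
    (∃ c : ℕ → Bool, Computable c ∧
      ∀ X : Set ℕ, X.Infinite → 0 ∉ X →
        ((∃ i, ∀ F : Finset ℕ, (F : Set ℕ) ⊆ X → F.Nonempty → c (∑ n ∈ F, n) = i) ∨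
          ((∀ N, ∃ x ∈ X, 3 ^ N ∣ x) ∧
            ∃ i, ∀ F : Finset ℕ, (F : Set ℕ) ⊆ X → 2 ≤ F.card → F.card ≤ 4 →
              c (∑ n ∈ F, n) = i)) →
        ∀ R : ℕ → ℕ → ℕ → Bool, Computable (fun q : ℕ × ℕ × ℕ => R q.1 q.2.1 q.2.2) →
          TuringReducible (char {n | ∃ a, ∀ b, R n a b = true}) (char X)) ∧
    -- four colours, sums of at most four distinct elements
    ∃ c : ℕ → Fin 4, Computable c ∧
      ∀ X : Set ℕ, X.Infinite → 0 ∉ X →
        (∃ i, ∀ F : Finset ℕ, (F : Set ℕ) ⊆ X → F.Nonempty → F.card ≤ 4 →
          c (∑ n ∈ F, n) = i) →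
        ∀ R : ℕ → ℕ → ℕ → Bool, Computable (fun q : ℕ × ℕ × ℕ => R q.1 q.2.1 q.2.2) →
          TuringReducible (char {n | ∃ a, ∀ b, R n a b = true}) (char X) := by
  have hcc : Computable (C (gg W0 p0)) := c_gg c_W0 c_p0
  constructor
  · refine ⟨C (gg W0 p0), hcc, ?_⟩
    rintro X hinf h0 (hc | ⟨hd, hc⟩) R hR
    · exact of_sys (sys_FS hinf h0) (hom_FS hc) re_Cd re_So c_sm hR
    · exact of_sys (sys_id h0 hd) (hom_id h0 hc)
        (Pool.Agent.Helper446.Oracle.REIn.mem Computable.id) re_Sep Computable.id hR
  · let pk : Bool × Bool → Fin 4 := fun q => (if q.1 then 1 else 0) + (if q.2 then 2 else 0)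
    let up : Fin 4 → Bool × Bool := fun i => (i.val % 2 = 1, i.val / 2 % 2 = 1)
    have hup : ∀ q, up (pk q) = q := by decide
    refine ⟨fun n => pk (b0 n, C (gg W0 p0) n), ?_, ?_⟩
    · have h1 : Computable pk := (Primrec.dom_finite pk).to_comp
      exact h1.comp (c_b0.pair hcc)
    · rintro X hinf h0 ⟨i, hi⟩ R hR
      have hp := ps_of h0
      have hb0 : Const3 b0 X := by
        refine ⟨(up i).1, fun F h1 h2 h3 => ?_⟩
        rw [← hi F h1 h2 (by omega), hup]
      have hf : Far X := hb0.far hinf hp
      refine of_sys (sys_id h0 fun N => ?_) (hom_id h0 ⟨(up i).2, fun F h1 h2 h3 => ?_⟩)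
        (Pool.Agent.Helper446.Oracle.REIn.mem Computable.id) re_Sep Computable.id hR
      · obtain ⟨x, hx, hN⟩ := hf N
        refine ⟨x, hx, ?_⟩
        exact dvd_of_dg fun j hj => dg_of_lt_la (by omega)
      · rw [← hi F h1 (Finset.card_pos.1 (by omega)) h3, hup]

end Pool.Agent.Results.MP_69fea5_lc.TwoColourDoubleJump
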